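import Pool.Agent.H211.AD.Stm4

/-!
Project AD (helper211), task INST: the instance of `Fam` and `Mk` for the family
`(P + a ^ K H) / (Q + a ^ K G)`.
-/

set_option autoImplicit false

open Metric Set MeasureTheory Filter Topology Polynomial
open scoped OnePoint ENNReal

namespace Pool.Agent.H385.AD211

open Pool.Agent.H211.AD Pool.Agent.H792R2.CE Pool.Agent.H792R2

lemma ndiv {x y : ℂ} {b m : ℝ} (hx : ‖x‖ ≤ b) (hm : 0 < m) (hy : m ≤ ‖y‖) : ‖x / y‖ ≤ b / m := by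
  rw [norm_div]
  exact div_le_div₀ ((norm_nonneg x).trans hx) hx hm hy

lemma poly_lip (p : ℂ[X]) (R : ℝ) : ∃ L : ℝ, 0 ≤ L ∧ ∀ z ∈ closedBall (0 : ℂ) R,
    ∀ z' ∈ closedBall (0 : ℂ) R, ‖p.eval z - p.eval z'‖ ≤ L * ‖z - z'‖ := by
  obtain ⟨L, hL⟩ := (isCompact_closedBall (0 : ℂ) R).exists_bound_of_continuousOn
    (f := fun z => (derivative p).eval z) (derivative p).continuous.continuousOn
  refine ⟨max L 0, le_max_right _ _, fun z hz z' hz' => ?_⟩
  exact (convex_closedBall (0 : ℂ) R).norm_image_sub_le_of_norm_deriv_le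
    (f := fun z => p.eval z) (C := max L 0) (fun x _ => p.differentiableAt)
    (fun x hx => by rw [Polynomial.deriv]; exact (hL x hx).trans (le_max_left _ _)) hz' hz

lemma poly_bd (p : ℂ[X]) {T : Set ℂ} (hT : IsCompact T) :
    ∃ b : ℝ, 0 ≤ b ∧ ∀ z ∈ T, ‖p.eval z‖ ≤ b := by
  obtain ⟨b, hb⟩ := hT.exists_bound_of_continuousOn (f := fun z => p.eval z)
    p.continuous.continuousOn
  exact ⟨max b 0, le_max_right _ _, fun z hz => (hb z hz).trans (le_max_left _ _)⟩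

lemma alg1 {p q h g s : ℂ} (hq : q ≠ 0) (hd : q + s * g ≠ 0) :
    (p + s * h) / (q + s * g) - p / q = s * (h * q - p * g) / (q * (q + s * g)) := by
  field_simp
  ring

lemma alg2 {p q h g s : ℂ} (hq : q ≠ 0) (hd : q + s * g ≠ 0) :
    (p + s * h) / (q + s * g) - p / q - s * ((h * q - p * g) / q ^ 2) =
      -(s ^ 2 * (g * (h * q - p * g))) / (q ^ 2 * (q + s * g)) := by
  field_simp
  ring

lemma alg3 {n n' q q' : ℂ} (hq : q ≠ 0) (hq' : q' ≠ 0) :
    n / q - n' / q' = ((n - n') * q' - n' * (q - q')) / (q * q') := by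
  field_simp
  ring

theorem t_INST : S_INST := by
  intro P Q H G Ks hKc hKQ _ K hK A ρ₂ hρ₂ hstep hstab c k l hc _ hk hl hlk τ t ρ hρ hτ0 hτd hτD
    ω hω hsum hne
  set N : ℂ[X] := H * Q - P * G with hN
  obtain ⟨δ₁, hδ₁, hδ₁s⟩ := hKc.exists_cthickening_subset_open
    (isOpen_ne.preimage Q.continuous : IsOpen ((fun z => Q.eval z) ⁻¹' {w | w ≠ 0})) hKQ
  have hTc : IsCompact (cthickening δ₁ Ks) := hKc.cthickening
  have hKT : Ks ⊆ cthickening δ₁ Ks := self_subset_cthickening _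
  have hcT : c ∈ cthickening δ₁ Ks := hKT hc
  have hQT : ∀ z ∈ cthickening δ₁ Ks, Q.eval z ≠ 0 := fun z hz => hδ₁s hz
  -- lower bound of `Q`
  obtain ⟨m, hm, hmQ⟩ : ∃ m > (0 : ℝ), ∀ z ∈ cthickening δ₁ Ks, m ≤ ‖Q.eval z‖ := by
    obtain ⟨z0, hz0, hmin⟩ := hTc.exists_isMinOn ⟨c, hcT⟩ (Q.continuous.norm.continuousOn)
    exact ⟨‖Q.eval z0‖, norm_pos_iff.2 (hQT z0 hz0), fun z hz => hmin hz⟩
  obtain ⟨bN, hbN0, hbN⟩ := poly_bd N hTc
  obtain ⟨bG, hbG0, hbG⟩ := poly_bd G hTc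
  obtain ⟨bQ, hbQ0, hbQ⟩ := poly_bd (Q ^ 2) hTc
  -- the cofactor
  obtain ⟨R, hR⟩ : ∃ R : ℂ[X], wr P Q = (X - C c) ^ k * R := by
    rw [← hk]
    exact Polynomial.pow_rootMultiplicity_dvd (wr P Q) c
  obtain ⟨bR, hbR0, hbR⟩ := poly_bd R hTc
  -- Lipschitz constants
  obtain ⟨M, hM⟩ : ∃ M : ℝ, ∀ z ∈ cthickening δ₁ Ks, z ∈ closedBall (0 : ℂ) M := by
    obtain ⟨M, hM⟩ := hTc.isBounded.exists_norm_le
    exact ⟨M, fun z hz => mem_closedBall_zero_iff.2 (hM z hz)⟩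
  obtain ⟨LN, hLN0, hLN⟩ := poly_lip N M
  obtain ⟨LQ, hLQ0, hLQ⟩ := poly_lip (Q ^ 2) M
  -- the linear bound of `τ`
  obtain ⟨Cτ, hCτ1, ρτ, hρτ, hτb⟩ : ∃ Cτ : ℝ, 1 ≤ Cτ ∧ ∃ ρτ > (0 : ℝ), ∀ b : ℂ, ‖b‖ < ρτ →
      ‖τ b - c‖ ≤ Cτ * ‖b‖ := by
    obtain ⟨C0, hC0⟩ := hτd.isBigO_sub.bound
    obtain ⟨r, hr, hrs⟩ := Metric.mem_nhds_iff.1 hC0
    refine ⟨max C0 1, le_max_right _ _, r, hr, fun b hb => ?_⟩
    have h1 := hrs (mem_ball_zero_iff.2 hb)
    have h2 : ‖τ b - τ 0‖ ≤ C0 * ‖b - 0‖ := h1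
    rw [hτ0, sub_zero] at h2
    exact h2.trans (mul_le_mul_of_nonneg_right (le_max_left _ _) (norm_nonneg _))
  -- the choice of `ρ₁`
  obtain ⟨ρ₁, hρ₁, hρ₁1, hρ₁2, hρ₁ρ, hρ₁τ, hρ₁m, hρ₁δ⟩ : ∃ ρ₁ : ℝ, 0 < ρ₁ ∧ ρ₁ ≤ 1 ∧ ρ₁ ≤ ρ₂ ∧
      ρ₁ ≤ ρ ∧ ρ₁ ≤ ρτ ∧ ρ₁ * bG ≤ m / 2 ∧ Cτ * ρ₁ ≤ δ₁ := by
    refine ⟨min (min (min 1 ρ₂) (min ρ ρτ)) (min (m / (2 * (bG + 1))) (δ₁ / Cτ)), ?_, ?_, ?_, ?_,
      ?_, ?_, ?_⟩
    · have : 0 < m / (2 * (bG + 1)) := by positivity
      have : 0 < δ₁ / Cτ := by positivity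
      positivity
    · exact (min_le_left _ _).trans ((min_le_left _ _).trans (min_le_left _ _))
    · exact (min_le_left _ _).trans ((min_le_left _ _).trans (min_le_right _ _))
    · exact (min_le_left _ _).trans ((min_le_right _ _).trans (min_le_left _ _))
    · exact (min_le_left _ _).trans ((min_le_right _ _).trans (min_le_right _ _))
    · have h1 : min (min (min 1 ρ₂) (min ρ ρτ)) (min (m / (2 * (bG + 1))) (δ₁ / Cτ)) ≤
          m / (2 * (bG + 1)) := (min_le_right _ _).trans (min_le_left _ _)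
      calc min (min (min 1 ρ₂) (min ρ ρτ)) (min (m / (2 * (bG + 1))) (δ₁ / Cτ)) * bG
          ≤ m / (2 * (bG + 1)) * bG := mul_le_mul_of_nonneg_right h1 hbG0
        _ ≤ m / (2 * (bG + 1)) * (bG + 1) :=
            mul_le_mul_of_nonneg_left (by linarith) (by positivity)
        _ = m / 2 := by field_simp
    · have h1 : min (min (min 1 ρ₂) (min ρ ρτ)) (min (m / (2 * (bG + 1))) (δ₁ / Cτ)) ≤
          δ₁ / Cτ := (min_le_right _ _).trans (min_le_right _ _)
      have hC0 : 0 < Cτ := by linarith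
      calc Cτ * min (min (min 1 ρ₂) (min ρ ρτ)) (min (m / (2 * (bG + 1))) (δ₁ / Cτ))
          ≤ Cτ * (δ₁ / Cτ) := mul_le_mul_of_nonneg_left h1 hC0.le
        _ = δ₁ := by field_simp
  have hC0 : 0 < Cτ := by linarith
  -- powers of `a`
  have hpw : ∀ (a : ℂ) (i j : ℕ), ‖a‖ < ρ₁ → i ≤ j → ‖a‖ ^ j ≤ ‖a‖ ^ i := fun a i j ha hij =>
    pow_le_pow_of_le_one (norm_nonneg _) (ha.le.trans hρ₁1) hij
  have hs1 : ∀ a : ℂ, ‖a‖ < ρ₁ → ‖a ^ K‖ ≤ ρ₁ := by
    intro a ha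
    rw [norm_pow]
    have := hpw a 1 K ha hK
    rw [pow_one] at this
    linarith
  -- the denominator
  have hden : ∀ a z : ℂ, ‖a‖ < ρ₁ → z ∈ cthickening δ₁ Ks →
      m / 2 ≤ ‖Q.eval z + a ^ K * G.eval z‖ := by
    intro a z ha hz
    have h1 : ‖a ^ K * G.eval z‖ ≤ m / 2 := by
      rw [norm_mul]
      calc ‖a ^ K‖ * ‖G.eval z‖ ≤ ρ₁ * bG :=
            mul_le_mul (hs1 a ha) (hbG z hz) (norm_nonneg _) hρ₁.le
        _ ≤ m / 2 := hρ₁m
    have h2 := hmQ z hz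
    have h3 : ‖Q.eval z‖ ≤ ‖Q.eval z + a ^ K * G.eval z‖ + ‖a ^ K * G.eval z‖ := by
      have := norm_sub_le (Q.eval z + a ^ K * G.eval z) (a ^ K * G.eval z)
      rwa [add_sub_cancel_right] at this
    linarith
  have hden0 : ∀ a z : ℂ, ‖a‖ < ρ₁ → z ∈ cthickening δ₁ Ks →
      Q.eval z + a ^ K * G.eval z ≠ 0 := by
    intro a z ha hz h0
    have := hden a z ha hz
    rw [h0, norm_zero] at this
    linarith
  have hden1 : ∀ a z : ℂ, ‖a‖ < ρ₁ → z ∈ cthickening δ₁ Ks →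
      (Q + C (a ^ K) * G).eval z ≠ 0 := by
    intro a z ha hz
    rw [eval_add, eval_mul, eval_C]
    exact hden0 a z ha hz
  have hfam : ∀ a z : ℂ, fam P Q H G K a z =
      (P.eval z + a ^ K * H.eval z) / (Q.eval z + a ^ K * G.eval z) := by
    intro a z
    simp only [fam, rf, eval_add, eval_mul, eval_C]
  have hNe : ∀ z : ℂ, N.eval z = H.eval z * Q.eval z - P.eval z * G.eval z := by
    intro z
    rw [hN, eval_sub, eval_mul, eval_mul]
  -- closeness
  have hclose : ∀ a z, ‖a‖ < ρ₁ → z ∈ cthickening δ₁ Ks →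
      ‖fam P Q H G K a z - rf P Q z‖ ≤ bN / (m * (m / 2)) * ‖a‖ ^ K := by
    intro a z ha hz
    have hq := hQT z hz
    have hd := hden0 a z ha hz
    rw [hfam]
    have e1 : rf P Q z = P.eval z / Q.eval z := rfl
    rw [e1, alg1 hq hd, ← hNe, mul_div_assoc, norm_mul, norm_pow, mul_comm]
    refine mul_le_mul_of_nonneg_right (ndiv (hbN z hz) (by positivity) ?_) (by positivity)
    rw [norm_mul]
    exact mul_le_mul (hmQ z hz) (hden a z ha hz) (by positivity) (norm_nonneg _)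
  -- first order
  have hfirst : ∀ a z, ‖a‖ < ρ₁ → z ∈ cthickening δ₁ Ks →
      ‖fam P Q H G K a z - rf P Q z - a ^ K * (N.eval z / Q.eval z ^ 2)‖ ≤
        bG * bN / (m ^ 2 * (m / 2)) * ‖a‖ ^ (K + 1) := by
    intro a z ha hz
    have hq := hQT z hz
    have hd := hden0 a z ha hz
    rw [hfam]
    have e1 : rf P Q z = P.eval z / Q.eval z := rfl
    rw [e1, hNe, alg2 hq hd, ← hNe, neg_div, norm_neg, mul_div_assoc, norm_mul, norm_pow, norm_pow,
      mul_comm]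
    refine mul_le_mul (ndiv ?_ (by positivity) ?_) ?_ (by positivity) (by positivity)
    · rw [norm_mul]
      exact mul_le_mul (hbG z hz) (hbN z hz) (norm_nonneg _) hbG0
    · rw [norm_mul, norm_pow]
      exact mul_le_mul (pow_le_pow_left₀ hm.le (hmQ z hz) 2) (hden a z ha hz) (by positivity)
        (by positivity)
    · rw [← pow_mul]
      exact hpw a (K + 1) (K * 2) ha (by omega)
  -- Lipschitz bound of `h`
  have hlip : ∀ z ∈ cthickening δ₁ Ks, ∀ z' ∈ cthickening δ₁ Ks,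
      ‖N.eval z / Q.eval z ^ 2 - N.eval z' / Q.eval z' ^ 2‖ ≤
        (LN * bQ + bN * LQ) / (m ^ 2 * m ^ 2) * ‖z - z'‖ := by
    intro z hz z' hz'
    have hq2 : ∀ z ∈ cthickening δ₁ Ks, m ^ 2 ≤ ‖Q.eval z ^ 2‖ := by
      intro z hz
      rw [norm_pow]
      exact pow_le_pow_left₀ hm.le (hmQ z hz) 2
    rw [alg3 (pow_ne_zero 2 (hQT z hz)) (pow_ne_zero 2 (hQT z' hz')), div_mul_eq_mul_div]
    refine ndiv ?_ (by positivity) ?_
    · have e1 : Q.eval z' ^ 2 = (Q ^ 2).eval z' := by rw [eval_pow]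
      have e2 : Q.eval z ^ 2 = (Q ^ 2).eval z := by rw [eval_pow]
      rw [e1, e2]
      calc ‖(N.eval z - N.eval z') * (Q ^ 2).eval z' -
            N.eval z' * ((Q ^ 2).eval z - (Q ^ 2).eval z')‖
          ≤ ‖(N.eval z - N.eval z') * (Q ^ 2).eval z'‖ +
            ‖N.eval z' * ((Q ^ 2).eval z - (Q ^ 2).eval z')‖ := norm_sub_le _ _
        _ ≤ (LN * ‖z - z'‖) * bQ + bN * (LQ * ‖z - z'‖) := by
            rw [norm_mul, norm_mul]
            exact add_le_add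
              (mul_le_mul (hLN z (hM z hz) z' (hM z' hz')) (hbQ z' hz') (norm_nonneg _)
                (by positivity))
              (mul_le_mul (hbN z' hz') (hLQ z (hM z hz) z' (hM z' hz')) (norm_nonneg _) hbN0)
        _ = (LN * bQ + bN * LQ) * ‖z - z'‖ := by ring
    · rw [norm_mul]
      exact mul_le_mul (hq2 z hz) (hq2 z' hz') (by positivity) (norm_nonneg _)
  -- near the critical point
  have hball : ∀ z, ‖z - c‖ ≤ δ₁ → z ∈ cthickening δ₁ Ks := by
    intro z hz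
    exact closedBall_subset_cthickening hc δ₁ (by rwa [mem_closedBall, dist_eq_norm])
  have hcrit : ∀ z, ‖z - c‖ ≤ δ₁ → ‖rf P Q z - rf P Q c‖ ≤ bR / m ^ 2 * ‖z - c‖ ^ (k + 1) := by
    intro z hz
    have h1 : ∀ x ∈ closedBall c ‖z - c‖, x ∈ cthickening δ₁ Ks := by
      intro x hx
      rw [mem_closedBall, dist_eq_norm] at hx
      exact hball x (hx.trans hz)
    have h2 := (convex_closedBall c ‖z - c‖).norm_image_sub_le_of_norm_deriv_le
      (f := rf P Q) (C := bR / m ^ 2 * ‖z - c‖ ^ k)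
      (fun x hx => (rf_hasDerivAt (P := P) (hQT x (h1 x hx))).differentiableAt)
      (fun x hx => by
        rw [(rf_hasDerivAt (P := P) (hQT x (h1 x hx))).deriv]
        have e1 : (wr P Q).eval x = (x - c) ^ k * R.eval x := by
          rw [hR, eval_mul, eval_pow, eval_sub, eval_X, eval_C]
        rw [e1, mul_div_assoc, norm_mul, norm_pow, mul_comm]
        rw [mem_closedBall, dist_eq_norm] at hx
        refine mul_le_mul (ndiv (hbR x (h1 x (by rwa [mem_closedBall, dist_eq_norm])))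
          (by positivity) ?_) (pow_le_pow_left₀ (norm_nonneg _) hx k) (by positivity)
          (by positivity)
        rw [norm_pow]
        exact pow_le_pow_left₀ hm.le
          (hmQ x (h1 x (by rwa [mem_closedBall, dist_eq_norm]))) 2)
      (mem_closedBall_self (norm_nonneg _)) (by rw [mem_closedBall, dist_eq_norm])
    refine h2.trans (le_of_eq ?_)
    rw [pow_succ]
    ring
  -- the marked point
  have hb : ∀ a : ℂ, ‖ω * a ^ l‖ = ‖a‖ ^ l := by
    intro a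
    rw [norm_mul, hω, one_mul, norm_pow]
  have hb1 : ∀ a : ℂ, ‖a‖ < ρ₁ → ‖ω * a ^ l‖ < ρ₁ := by
    intro a ha
    rw [hb]
    have := hpw a 1 l ha hl
    rw [pow_one] at this
    linarith
  have hζ : ∀ a : ℂ, ‖a‖ < ρ₁ → ‖τ (ω * a ^ l) - c‖ ≤ Cτ * ‖a‖ ^ l := by
    intro a ha
    rw [← hb]
    exact hτb _ (lt_of_lt_of_le (hb1 a ha) hρ₁τ)
  have hζδ : ∀ a : ℂ, ‖a‖ < ρ₁ → ‖τ (ω * a ^ l) - c‖ ≤ δ₁ := by
    intro a ha
    refine (hζ a ha).trans (le_trans ?_ hρ₁δ)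
    refine mul_le_mul_of_nonneg_left ?_ hC0.le
    have := hb1 a ha
    rw [hb] at this
    exact this.le
  -- the constants
  set c1 : ℝ := bG * bN / (m ^ 2 * (m / 2)) with hc1
  set c2 : ℝ := (LN * bQ + bN * LQ) / (m ^ 2 * m ^ 2) with hc2
  set c3 : ℝ := bR / m ^ 2 * Cτ ^ (k + 1) with hc3
  set c4 : ℝ := bN / m ^ 2 with hc4
  have hc1' : 0 ≤ c1 := by positivity
  have hc2' : 0 ≤ c2 := by positivity
  have hc3' : 0 ≤ c3 := by positivity
  have hc4' : 0 ≤ c4 := by positivity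
  refine ⟨ρ₁, δ₁, bN / (m * (m / 2)) + 1, c1 + c2 * Cτ + c3 + c2 + c4 + 1, ?_, ?_⟩
  · exact
      { q_pos := hK
        ρ₁_pos := hρ₁
        ρ₁_le := hρ₁1
        δ₁_pos := hδ₁
        C₁_pos := by positivity
        zero := fam_zero hK
        smooth := fun a z ha hz => fam_contDiffAt (a, z) (hden1 a z ha hz)
        close := fun a z ha hz => (hclose a z ha hz).trans
          (mul_le_mul_of_nonneg_right (by linarith) (by positivity))
        step := fun a z ha hz h => hstep a z (lt_of_lt_of_le ha hρ₁2) (hden1 a z ha hz) h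
        stab := hstab }
  · refine
      { diff := fun a ha => ?_
        near := fun a ha => hball _ (hζδ a ha)
        C₃_pos := by positivity
        val := fun a ha => ?_
        fam := fun a z ha hz => (hfirst a z ha hz).trans
          (mul_le_mul_of_nonneg_right ?_ (by positivity))
        lip := fun z hz z' hz' => (hlip z (hKT hz) z' hz').trans
          (mul_le_mul_of_nonneg_right ?_ (by positivity))
        bd := fun z hz => ?_
        sum := ?_
        ne := hne }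
    · have h3 : DifferentiableAt ℂ (fun a : ℂ => ω * a ^ l) a := by fun_prop
      exact DifferentiableAt.comp (g := τ) (f := fun a : ℂ => ω * a ^ l) a
        (hτD _ (lt_of_lt_of_le (hb1 a ha) hρ₁ρ)) h3
    · set z : ℂ := τ (ω * a ^ l) with hz
      have hzT : z ∈ cthickening δ₁ Ks := hball _ (hζδ a ha)
      have h1 := hfirst a z ha hzT
      have h2 := hlip z hzT c hcT
      have h3 := hcrit z (hζδ a ha)
      have h4 : ‖z - c‖ ≤ Cτ * ‖a‖ ^ l := hζ a ha
      have e1 : fam P Q H G K a z - rf P Q c - a ^ K * (N.eval c / Q.eval c ^ 2) =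
          (fam P Q H G K a z - rf P Q z - a ^ K * (N.eval z / Q.eval z ^ 2)) +
          a ^ K * (N.eval z / Q.eval z ^ 2 - N.eval c / Q.eval c ^ 2) +
          (rf P Q z - rf P Q c) := by ring
      show ‖fam P Q H G K a z - rf P Q c - a ^ K * (N.eval c / Q.eval c ^ 2)‖ ≤ _
      rw [e1]
      have h5 : ‖a ^ K * (N.eval z / Q.eval z ^ 2 - N.eval c / Q.eval c ^ 2)‖ ≤
          c2 * Cτ * ‖a‖ ^ (K + 1) := by
        rw [norm_mul, norm_pow]
        calc ‖a‖ ^ K * ‖N.eval z / Q.eval z ^ 2 - N.eval c / Q.eval c ^ 2‖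
            ≤ ‖a‖ ^ K * (c2 * (Cτ * ‖a‖ ^ l)) :=
              mul_le_mul_of_nonneg_left (h2.trans (mul_le_mul_of_nonneg_left h4 hc2'))
                (by positivity)
          _ = c2 * Cτ * ‖a‖ ^ (K + l) := by
              rw [pow_add]
              ring
          _ ≤ c2 * Cτ * ‖a‖ ^ (K + 1) :=
              mul_le_mul_of_nonneg_left (hpw a (K + 1) (K + l) ha (by omega)) (by positivity)
      have h6 : ‖rf P Q z - rf P Q c‖ ≤ c3 * ‖a‖ ^ (K + 1) := by
        refine h3.trans ?_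
        calc bR / m ^ 2 * ‖z - c‖ ^ (k + 1) ≤ bR / m ^ 2 * (Cτ * ‖a‖ ^ l) ^ (k + 1) :=
              mul_le_mul_of_nonneg_left (pow_le_pow_left₀ (norm_nonneg _) h4 _) (by positivity)
          _ = c3 * ‖a‖ ^ (K + l) := by
              rw [mul_pow, ← pow_mul, hc3]
              have : l * (k + 1) = K + l := by rw [mul_add, hlk, mul_one]
              rw [this]
              ring
          _ ≤ c3 * ‖a‖ ^ (K + 1) :=
              mul_le_mul_of_nonneg_left (hpw a (K + 1) (K + l) ha (by omega)) hc3'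
      have h7 : 0 ≤ ‖a‖ ^ (K + 1) := by positivity
      calc _ ≤ ‖fam P Q H G K a z - rf P Q z - a ^ K * (N.eval z / Q.eval z ^ 2)‖ +
            ‖a ^ K * (N.eval z / Q.eval z ^ 2 - N.eval c / Q.eval c ^ 2)‖ +
            ‖rf P Q z - rf P Q c‖ := norm_add₃_le
        _ ≤ c1 * ‖a‖ ^ (K + 1) + c2 * Cτ * ‖a‖ ^ (K + 1) + c3 * ‖a‖ ^ (K + 1) :=
            add_le_add (add_le_add h1 h5) h6
        _ ≤ (c1 + c2 * Cτ + c3 + c2 + c4 + 1) * ‖a‖ ^ (K + 1) := by nlinarith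
    · have : 0 ≤ c2 * Cτ := by positivity
      linarith
    · have : 0 ≤ c2 * Cτ := by positivity
      linarith
    · have h1 : ‖N.eval z / Q.eval z ^ 2‖ ≤ c4 := by
        refine ndiv (hbN z (hKT hz)) (by positivity) ?_
        rw [norm_pow]
        exact pow_le_pow_left₀ hm.le (hmQ z (hKT hz)) 2
      have : 0 ≤ c2 * Cτ := by positivity
      show ‖N.eval z / Q.eval z ^ 2‖ ≤ _
      linarith
    · have h1 := (hasSum_nat_add_iff' 1).2 hsum.hasSum
      rw [Finset.sum_range_one] at h1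
      have e0 : N.eval ((rf P Q)^[0] c) / Q.eval ((rf P Q)^[0] c) ^ 2 /
          deriv ((rf P Q)^[0]) (rf P Q c) = N.eval c / Q.eval c ^ 2 := by
        rw [Function.iterate_zero, id, deriv_id, div_one]
      rw [e0] at h1
      refine h1.congr_fun fun i => ?_
      show N.eval ((rf P Q)^[i] (rf P Q c)) / Q.eval ((rf P Q)^[i] (rf P Q c)) ^ 2 /
        deriv (rf P Q)^[i + 1] (rf P Q c) = _
      rw [← Function.iterate_succ_apply]

end Pool.Agent.H385.AD211
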